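import Mathlib

/-!
The tip of a horn between two graphs: an area argument.

`u` and `l` are `2/5`-Lipschitz functions with `u 0 = l 0 = 0` and `l < u` on `(0, X]`.  For `a` the
point `A = (a, u a)` and for `b` the point `B = (b, l b)`; the square erected on `AB` to the right has
the further vertices `D = (a + u a - l b, u a + b - a)` and `C = (b + u a - l b, l b + b - a)`.
`f1 a b` is the height of `D` over the graph of `u` and `f2 a b` the height of `C` over the graph of
`l`.  We show that there are arbitrarily small `a` with `f2 a b > 0` where `f1 a b = 0`.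
-/

namespace Pool.Agent.TH587

open Set Filter Topology

/-- Height of the upper right vertex over the upper graph. -/
def f1 (u l : ℝ → ℝ) (a b : ℝ) : ℝ := u a + b - a - u (a + u a - l b)

/-- Height of the lower right vertex over the lower graph. -/
def f2 (u l : ℝ → ℝ) (a b : ℝ) : ℝ := l b + b - a - l (b + u a - l b)

/-- Slopes at most `2/5`. -/
def Lip (u : ℝ → ℝ) : Prop := ∀ x y, |u x - u y| ≤ 2/5 * |x - y|

lemma Lip.cont {u : ℝ → ℝ} (hu : Lip u) : Continuous u := by
  have : LipschitzWith ⟨2/5, by norm_num⟩ u := by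
    apply LipschitzWith.of_dist_le_mul
    intro x y
    rw [Real.dist_eq, Real.dist_eq]
    exact hu x y
  exact this.continuous

lemma Lip.le {u : ℝ → ℝ} (hu : Lip u) {x y : ℝ} (h : x ≤ y) : 
    u y - u x ≤ 2/5 * (y - x) ∧ -(2/5 * (y - x)) ≤ u y - u x := by
  have := hu y x
  rw [abs_of_nonneg (by linarith : (0:ℝ) ≤ y - x)] at this
  rw [abs_le] at this
  exact ⟨this.2, this.1⟩

variable {u l : ℝ → ℝ}

lemma f1_mono (hu : Lip u) (hl : Lip l) {a b b' : ℝ} (h : b ≤ b') : 
    21/25 * (b' - b) ≤ f1 u l a b' - f1 u l a b := by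
  unfold f1
  have k1 := hl.le h
  have k2 := hu (a + u a - l b) (a + u a - l b')
  have e : a + u a - l b - (a + u a - l b') = l b' - l b := by ring
  rw [e] at k2
  have k3 : |l b' - l b| ≤ 2/5 * (b' - b) := by rw [abs_le]; exact ⟨k1.2, k1.1⟩
  rw [abs_le] at k2
  linarith [k2.1, k2.2]

lemma f2_mono (hl : Lip l) {a b b' : ℝ} (h : b ≤ b') : 
    f2 u l a b ≤ f2 u l a b' := by
  unfold f2
  have k1 := hl.le h
  have k2 := hl (b + u a - l b) (b' + u a - l b')
  have e : b + u a - l b - (b' + u a - l b') = -((b' - b) - (l b' - l b)) := by ring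
  rw [e, abs_neg] at k2
  have k3 : |(b' - b) - (l b' - l b)| ≤ 7/5 * (b' - b) := by 
    rw [abs_le]; constructor <;> linarith [k1.1, k1.2]
  rw [abs_le] at k2
  linarith [k2.1, k2.2, k1.1, k1.2]

lemma f1_cont (hu : Lip u) (hl : Lip l) (a : ℝ) : Continuous (fun b => f1 u l a b) := by
  have := hu.cont
  have := hl.cont
  unfold f1
  fun_prop

lemma exists_root (hu : Lip u) (hl : Lip l) (a : ℝ) : ∃ b, f1 u l a b = 0 := by
  set M := |f1 u l a a| with hM
  have hM0 : 0 ≤ M := abs_nonneg _
  have hlo : f1 u l a (a - 2*M) ≤ 0 := by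
    have k := f1_mono hu hl (a := a) (b := a - 2*M) (b' := a) (by linarith)
    have := le_abs_self (f1 u l a a)
    linarith
  have hhi : 0 ≤ f1 u l a (a + 2*M) := by
    have k := f1_mono hu hl (a := a) (b := a) (b' := a + 2*M) (by linarith)
    have := neg_abs_le (f1 u l a a)
    linarith
  obtain ⟨b, -, hb⟩ := intermediate_value_Icc (by linarith : a - 2*M ≤ a + 2*M) 
    (f1_cont hu hl a).continuousOn (show (0:ℝ) ∈ Icc (f1 u l a (a - 2*M)) (f1 u l a (a + 2*M)) from 
      ⟨hlo, hhi⟩)
  exact ⟨b, hb⟩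

/-- The step estimates: `dx = a' - a ≥ 0`. -/
lemma step (hu : Lip u) (hl : Lip l) {a a' b b' : ℝ} (h : a ≤ a') (hb : f1 u l a b = 0) 
    (hb' : f1 u l a' b' = 0) : 
    0 ≤ b' - b ∧ b' - b ≤ 2 * (a' - a) ∧ 0 ≤ (b' + u a' - l b') - (b + u a - l b) ∧ 
    |(u a' - l b') - (u a - l b)| ≤ 6/5 * (a' - a) := by
  unfold f1 at hb hb'
  have k1 := hu.le h
  have k2 := hl b' b
  have k3 := hu (a' + u a' - l b') (a + u a - l b)
  rw [show u (a' + u a' - l b') = u a' + b' - a' by linarith, 
    show u (a + u a - l b) = u a + b - a by linarith] at k3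
  set dx := a' - a with hdx
  set db := b' - b with hdb
  set du := u a' - u a with hdu
  set dl := l b' - l b with hdl
  have e1 : u a' + b' - a' - (u a + b - a) = du + db - dx := by rw [hdx, hdb, hdu]; ring
  have e2 : a' + u a' - l b' - (a + u a - l b) = dx + du - dl := by rw [hdx, hdu, hdl]; ring
  rw [e1, e2] at k3
  have e3 : (b' + u a' - l b') - (b + u a - l b) = db + du - dl := by rw [hdb, hdu, hdl]; ring
  have e4 : (u a' - l b') - (u a - l b) = du - dl := by rw [hdu, hdl]; ring
  rw [e3, e4]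
  have hdx0 : 0 ≤ dx := by rw [hdx]; linarith
  obtain ⟨k1a, k1b⟩ := k1
  rw [abs_le] at k2 k3
  obtain ⟨k2a, k2b⟩ := k2
  obtain ⟨k3a, k3b⟩ := k3
  have main : 0 ≤ db ∧ db ≤ 2*dx ∧ 0 ≤ db + du - dl := by
    rcases le_total 0 db with c1 | c1
    · rw [abs_of_nonneg c1] at k2a k2b
      rcases le_total 0 (dx + du - dl) with c2 | c2
      · rw [abs_of_nonneg c2] at k3a k3b
        refine ⟨c1, by linarith, by linarith⟩
      · rw [abs_of_nonpos c2] at k3a k3b
        refine ⟨c1, by linarith, by linarith⟩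
    · rw [abs_of_nonpos c1] at k2a k2b
      rcases le_total 0 (dx + du - dl) with c2 | c2
      · rw [abs_of_nonneg c2] at k3a k3b
        refine ⟨by linarith, by linarith, by linarith⟩
      · rw [abs_of_nonpos c2] at k3a k3b
        refine ⟨by linarith, by linarith, by linarith⟩
  obtain ⟨m1, m2, m3⟩ := main
  rw [abs_of_nonneg m1] at k2a k2b
  refine ⟨m1, m2, m3, ?_⟩
  rw [abs_le]
  constructor <;> linarith

/-- Quadratic bounds for a primitive. -/
lemma prim_bound {F : ℝ → ℝ} (hu : Lip u) (hF : ∀ x, HasDerivAt F (u x) x) (x y : ℝ) : 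
    |F y - F x - u x * (y - x)| ≤ 1/5 * (y - x)^2 := by
  have key : ∀ s : ℝ, (s = 1 ∨ s = -1) → 0 ≤ s * (F y - F x - u x * (y - x)) + 1/5 * (y - x)^2 := by
    intro s hs
    set g : ℝ → ℝ := fun z => s * (F z - F x - u x * (z - x)) + 1/5 * (z - x)^2 with hg
    have hd : ∀ z, HasDerivAt g (s * (u z - u x) + 2/5 * (z - x)) z := by
      intro z
      have h1 : HasDerivAt g (s * (u z - u x * 1) + 1/5 * (((2:ℕ):ℝ) * (id z - x) ^ (2 - 1) * 1)) z := 
        ((((hF z).sub_const (F x)).sub (((hasDerivAt_id z).sub_const x).const_mul 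
        (u x))).const_mul s).add ((((hasDerivAt_id z).sub_const x).pow 2).const_mul (1/5))
      have e : s * (u z - u x * 1) + 1/5 * (((2:ℕ):ℝ) * (id z - x) ^ (2 - 1) * 1) = 
          s * (u z - u x) + 2/5 * (z - x) := by
        simp only [id]; norm_num; ring
      rw [e] at h1
      exact h1
    have hcont : Continuous g := continuous_iff_continuousAt.mpr fun z => (hd z).continuousAt
    have g0 : g x = 0 := by simp [hg]
    show 0 ≤ g y
    rw [← g0]
    rcases le_total x y with hxy | hxy
    · have hm : MonotoneOn g (Ici x) := by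
        apply monotoneOn_of_deriv_nonneg (convex_Ici x) hcont.continuousOn
        · intro z _
          exact (hd z).differentiableAt.differentiableWithinAt
        · intro z hz
          rw [interior_Ici, mem_Ioi] at hz
          rw [(hd z).deriv]
          have := hu.le hz.le
          rcases hs with rfl | rfl <;> linarith [this.1, this.2]
      exact hm self_mem_Ici hxy hxy
    · have hm : AntitoneOn g (Iic x) := by
        apply antitoneOn_of_deriv_nonpos (convex_Iic x) hcont.continuousOn
        · intro z _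
          exact (hd z).differentiableAt.differentiableWithinAt
        · intro z hz
          rw [interior_Iic, mem_Iio] at hz
          rw [(hd z).deriv]
          have := hu.le hz.le
          rcases hs with rfl | rfl <;> linarith [this.1, this.2]
      exact hm hxy self_mem_Iic hxy
  have k1 := key 1 (Or.inl rfl)
  have k2 := key (-1) (Or.inr rfl)
  rw [abs_le]
  constructor <;> linarith

/-- A function whose increments are bounded by the squares of the steps does not increase. -/
lemma le_of_sq {f : ℝ → ℝ} {p q C : ℝ} (hpq : p ≤ q) 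
    (h : ∀ x y, p ≤ x → x ≤ y → y ≤ q → f y - f x ≤ C * (y - x)^2) : f q ≤ f p := by
  have hn : ∀ n : ℕ, 0 < n → f q - f p ≤ C * (q - p)^2 / n := by
    intro n hn
    have hn' : (0:ℝ) < n := by exact_mod_cast hn
    set d := (q - p) / n with hd
    have hd0 : 0 ≤ d := div_nonneg (by linarith) hn'.le
    have hk : ∀ k : ℕ, k ≤ n → f (p + k * d) - f p ≤ k * (C * d^2) := by
      intro k
      induction k with
      | zero => intro _; simp
      | succ k ih =>
        intro hk
        have h1 := ih (by omega)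
        have hkn : ((k:ℝ) + 1) ≤ n := by exact_mod_cast hk
        have hend : p + ((k:ℝ) + 1) * d ≤ q := by
          have : ((k:ℝ)+1) * d ≤ n * d := mul_le_mul_of_nonneg_right hkn hd0
          have e : n * d = q - p := by rw [hd]; field_simp
          linarith
        have h2 := h (p + k * d) (p + ((k:ℝ) + 1) * d) (by have := mul_nonneg (Nat.cast_nonneg (α := ℝ) k) hd0; linarith) (by nlinarith) hend
        have e : p + ((k:ℝ) + 1) * d - (p + k * d) = d := by ring
        rw [e] at h2
        push_cast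
        linarith
    have h3 := hk n le_rfl
    have e : p + n * d = q := by rw [hd]; field_simp; ring
    rw [e] at h3
    have e2 : (n:ℝ) * (C * d^2) = C * (q - p)^2 / n := by rw [hd]; field_simp
    rw [e2] at h3
    exact h3
  by_contra hcon
  push Not at hcon
  obtain ⟨n, hn1⟩ := exists_nat_gt (C * (q - p)^2 / (f q - f p))
  have hpos : 0 < f q - f p := by linarith
  have h4 := hn (n+1) (by omega)
  rw [div_lt_iff₀ hpos] at hn1
  rw [le_div_iff₀ (by positivity)] at h4
  push_cast at h4
  nlinarith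

lemma prim_deriv (hu : Lip u) (x : ℝ) : HasDerivAt (fun y => ∫ t in (0:ℝ)..y, u t) (u x) x := 
  (hu.cont.integral_hasStrictDerivAt 0 x).hasDerivAt

lemma p_pos (hu : Lip u) (hl : Lip l) {a b : ℝ} (h : l a < u a) (hb : f1 u l a b = 0) : 
    0 < u a - l b := by
  unfold f1 at hb
  by_contra hcon
  push Not at hcon
  have k1 := hu (a + u a - l b) a
  have e1 : u (a + u a - l b) - u a = b - a := by linarith
  have e2 : a + u a - l b - a = u a - l b := by ring
  rw [e1, e2, abs_of_nonpos hcon] at k1
  have k2 := hl b a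
  rw [abs_le] at k2
  linarith [k2.1, k2.2]

/-- **The tip lemma.** -/
theorem tip (hu : Lip u) (hl : Lip l) (u0 : u 0 = 0) (l0 : l 0 = 0) {η : ℝ} (hη : 0 < η) 
    (hX : ∀ x, 0 < x → x < η → l x < u x) : 
    ∃ a, 0 < a ∧ a < η ∧ ∀ b, 0 ≤ f1 u l a b → 0 < f2 u l a b := by
  by_contra hcon
  push Not at hcon
  choose B hB using exists_root hu hl
  have hB0 : B 0 = 0 := by
    have h0 : f1 u l 0 0 = 0 := by unfold f1; simp [u0, l0]
    have h1 := hB 0
    rcases lt_trichotomy (B 0) 0 with h | h | h
    · have := f1_mono hu hl (a := 0) h.le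
      linarith
    · exact h
    · have := f1_mono hu hl (a := 0) h.le
      linarith
  have hκ : ∀ x, 0 ≤ x → x < η → f2 u l x (B x) ≤ 0 := by
    intro x hx0 hx
    rcases hx0.eq_or_lt with h | h
    · rw [← h, hB0]
      unfold f2
      simp [u0, l0]
    · obtain ⟨b, hb1, hb2⟩ := hcon x h hx
      have hle : B x ≤ b := by
        by_contra hlt
        push Not at hlt
        have := f1_mono hu hl (a := x) hlt.le
        rw [hB x] at this
        linarith
      exact (f2_mono hl hle).trans hb2
  set F : ℝ → ℝ := fun y => ∫ t in (0:ℝ)..y, u t with hF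
  set G : ℝ → ℝ := fun y => ∫ t in (0:ℝ)..y, l t with hG
  have hFd : ∀ x, HasDerivAt F (u x) x := prim_deriv hu
  have hGd : ∀ x, HasDerivAt G (l x) x := prim_deriv hl
  set f : ℝ → ℝ := fun a => F (a + (u a - l (B a))) - F a - G (B a + (u a - l (B a))) + G (B a) - 
    ((u a - l (B a))^2 - (B a - a)^2)/2 with hf
  have hstep : ∀ x y, 0 ≤ x → x ≤ y → y ≤ η/2 → f y - f x ≤ 5 * (y - x)^2 := by
    intro x y hx hxy hy
    obtain ⟨s1, s2, s3, s4⟩ := step hu hl hxy (hB x) (hB y)
    have hk := hκ x hx (by linarith)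
    have hb := hB x
    unfold f1 at hb
    unfold f2 at hk
    have b1 := prim_bound hu hFd (x + (u x - l (B x))) (y + (u y - l (B y)))
    have b2 := prim_bound hu hFd x y
    have b3 := prim_bound hl hGd (B x + (u x - l (B x))) (B y + (u y - l (B y)))
    have b4 := prim_bound hl hGd (B x) (B y)
    rw [show x + (u x - l (B x)) = x + u x - l (B x) by ring] at b1
    rw [show B x + (u x - l (B x)) = B x + u x - l (B x) by ring] at b3
    rw [show u (x + u x - l (B x)) = u x + B x - x by linarith] at b1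
    have e0 : f y - f x = (F (y + (u y - l (B y))) - F (x + u x - l (B x))) - (F y - F x) - 
        (G (B y + (u y - l (B y))) - G (B x + u x - l (B x))) + (G (B y) - G (B x)) - 
        ((u y - l (B y))^2 - (B y - y)^2)/2 + ((u x - l (B x))^2 - (B x - x)^2)/2 := by
      rw [hf]
      simp only
      rw [show x + (u x - l (B x)) = x + u x - l (B x) by ring, 
        show B x + (u x - l (B x)) = B x + u x - l (B x) by ring]
      ring
    rw [e0]
    set F1 := F (y + (u y - l (B y))) - F (x + u x - l (B x)) with hF1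
    set F2 := F y - F x with hF2
    set G1 := G (B y + (u y - l (B y))) - G (B x + u x - l (B x)) with hG1
    set G2 := G (B y) - G (B x) with hG2
    set lC := l (B x + u x - l (B x)) with hlC
    obtain ⟨dp, hdp⟩ : ∃ dp, dp = (u y - l (B y)) - (u x - l (B x)) := ⟨_, rfl⟩
    obtain ⟨db, hdb⟩ : ∃ db, db = B y - B x := ⟨_, rfl⟩
    obtain ⟨dx, hdx⟩ : ∃ dx, dx = y - x := ⟨_, rfl⟩
    obtain ⟨p, hp⟩ : ∃ p, p = u x - l (B x) := ⟨_, rfl⟩
    have ep' : u y - l (B y) = p + dp := by rw [hdp, hp]; ring
    have eby : B y = B x + db := by rw [hdb]; ring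
    have ey : y = x + dx := by rw [hdx]; ring
    have hdx0 : 0 ≤ dx := by rw [hdx]; linarith
    have t1 : y + (u y - l (B y)) - (x + u x - l (B x)) = dx + dp := by rw [hdx, hdp]; ring
    have t3 : B y + (u y - l (B y)) - (B x + u x - l (B x)) = db + dp := by rw [hdb, hdp]; ring
    rw [t1] at b1
    rw [t3] at b3
    rw [← hdx] at b2
    rw [← hdb] at b4
    rw [← hdp, ← hdx] at s4
    rw [← hdb] at s1
    rw [← hdb, ← hdx] at s2
    have s3' : 0 ≤ db + dp := by rw [hdb, hdp]; linarith
    rw [← hdx, ep', ← hp]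
    rw [show B y - y = (B x - x) + (db - dx) by rw [hdb, hdx]; ring]
    have hux : u x = p + l (B x) := by rw [hp]; ring
    rw [hux] at b1 b2 
    have hk' : l (B x) + B x - x - lC ≤ 0 := hk
    have m1 : (l (B x) + B x - x - lC) * (db + dp) ≤ 0 := mul_nonpos_of_nonpos_of_nonneg hk' s3'
    rw [abs_le] at b1 b2 b3 b4 s4
    have q1 : (dx + dp)^2 ≤ (11/5*dx)^2 := sq_le_sq' (by linarith [s4.1]) (by linarith [s4.2])
    have q2 : (db + dp)^2 ≤ (16/5*dx)^2 := sq_le_sq' (by linarith [s4.1]) (by linarith [s4.2])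
    have q3 : db^2 ≤ (2*dx)^2 := sq_le_sq' (by linarith) (by linarith)
    have q4 : (db - dx)^2 ≤ dx^2 := sq_le_sq' (by linarith) (by linarith)
    have q5 : 0 ≤ dp^2 := sq_nonneg _
    have q6 : 0 ≤ dx^2 := sq_nonneg _
    linarith [b1.2, b2.1, b3.1, b4.2]
  have hfin := le_of_sq (f := f) (p := 0) (q := η/2) (C := 5) (by linarith) hstep
  have hf0 : f 0 = 0 := by
    rw [hf]
    simp only
    rw [hB0, u0, l0]
    simp [hF, hG]
  rw [hf0] at hfin
  have hpos : 0 < u (η/2) - l (B (η/2)) := 
    p_pos hu hl (hX _ (by linarith) (by linarith)) (hB _)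
  have b1 := prim_bound hu hFd (η/2) (η/2 + (u (η/2) - l (B (η/2))))
  have b2 := prim_bound hl hGd (B (η/2)) (B (η/2) + (u (η/2) - l (B (η/2))))
  rw [add_sub_cancel_left] at b1 b2
  rw [abs_le] at b1 b2
  have e : f (η/2) = F (η/2 + (u (η/2) - l (B (η/2)))) - F (η/2) - 
    G (B (η/2) + (u (η/2) - l (B (η/2)))) + G (B (η/2)) - 
    ((u (η/2) - l (B (η/2)))^2 - (B (η/2) - η/2)^2)/2 := rfl
  rw [e] at hfin
  have q1 : 0 < (u (η/2) - l (B (η/2)))^2 := by positivity
  have q2 : 0 ≤ (B (η/2) - η/2)^2 := sq_nonneg _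
  linarith [b1.1, b2.2]

end Pool.Agent.TH587
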