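import Mathlib
import Pool.Agent.TH587.Horn1

/-!
Special trapezoids near the tip of a horn.
-/

namespace Pool.Agent.TH587

open Set Filter Topology

/-- The points of the curve `t ↦ (x t, y t)` with parameters `t0, t1, t2, t3` form a (possibly
crossed) isosceles trapezoid with three equal sides, the base `t0 t3` being the short one; in terms of
the vector from the second to the third point. -/
def Spec (x y : ℝ → ℝ) (t0 t1 t2 t3 : ℝ) : Prop := ∃ α σ : ℝ, α^2 + σ^2 = 1 ∧ 0 ≤ α ∧ α < 1 ∧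
  x t0 - x t1 = α*(x t2 - x t1) - σ*(y t2 - y t1) ∧ 
  y t0 - y t1 = α*(y t2 - y t1) + σ*(x t2 - x t1) ∧ 
  x t3 - x t2 = -(α*(x t2 - x t1)) - σ*(y t2 - y t1) ∧ 
  y t3 - y t2 = -(α*(y t2 - y t1)) + σ*(x t2 - x t1)

lemma Spec.neg {x y : ℝ → ℝ} {t0 t1 t2 t3 : ℝ} (h : Spec x y t0 t1 t2 t3) : 
    Spec x (fun t => -y t) t0 t1 t2 t3 := by
  obtain ⟨α, σ, h1, h2, h3, h4, h5, h6, h7⟩ := h
  refine ⟨α, -σ, by rw [neg_sq]; exact h1, h2, h3, ?_, ?_, ?_, ?_⟩ <;> simp only <;> linarith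

/-- On a strictly monotone piece there is no special trapezoid. -/
lemma Spec.no_mono {x y : ℝ → ℝ} {t0 t1 t2 t3 : ℝ} (h : Spec x y t0 t1 t2 t3) (h01 : x t0 < x t1) 
    (h12 : x t1 < x t2) (h23 : x t2 < x t3) : False := by
  obtain ⟨α, σ, h1, h2, h3, h4, h5, h6, h7⟩ := h
  have := mul_nonneg h2 (sub_nonneg.mpr h12.le)
  linarith

/-- Products of two steps in a flat cone. -/
lemma cone_prod {a b c d : ℝ} (ha : 0 < a) (hb : |b| ≤ 2/5 * a) (hc : 0 < c) (hd : |d| ≤ 2/5 * c) : 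
    0 < a * c + b * d := by
  have h1 : |b * d| ≤ (2/5*a)*(2/5*c) := by
    rw [abs_mul]
    exact mul_le_mul hb hd (abs_nonneg _) (by positivity)
  have h2 := neg_abs_le (b*d)
  have h3 : 0 < a * c := by positivity
  nlinarith

/-- The last three points are not on one flat arm. -/
lemma Spec.no_right {x y : ℝ → ℝ} {t0 t1 t2 t3 : ℝ} (h : Spec x y t0 t1 t2 t3) 
    (h12 : x t1 < x t2) (h23 : x t2 < x t3) (k12 : |y t2 - y t1| ≤ 2/5 * |x t2 - x t1|)
    (k23 : |y t3 - y t2| ≤ 2/5 * |x t3 - x t2|) : False := by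
  obtain ⟨α, σ, h1, h2, h3, h4, h5, h6, h7⟩ := h
  rw [abs_of_pos (sub_pos.mpr h12)] at k12
  rw [abs_of_pos (sub_pos.mpr h23)] at k23
  have := cone_prod (sub_pos.mpr h12) k12 (sub_pos.mpr h23) k23
  rw [h6, h7] at this
  have h8 : 0 ≤ α * ((x t2 - x t1)^2 + (y t2 - y t1)^2) := by positivity
  nlinarith

/-- The first three points are not on one flat arm. -/
lemma Spec.no_left {x y : ℝ → ℝ} {t0 t1 t2 t3 : ℝ} (h : Spec x y t0 t1 t2 t3) 
    (h01 : x t1 < x t0) (h12 : x t2 < x t1) (k01 : |y t0 - y t1| ≤ 2/5 * |x t0 - x t1|)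
    (k12 : |y t1 - y t2| ≤ 2/5 * |x t1 - x t2|) : False := by
  obtain ⟨α, σ, h1, h2, h3, h4, h5, h6, h7⟩ := h
  rw [abs_of_pos (sub_pos.mpr h12)] at k12
  rw [abs_of_pos (sub_pos.mpr h01)] at k01
  have := cone_prod (sub_pos.mpr h01) k01 (sub_pos.mpr h12) k12
  rw [h4, h5] at this
  have h8 : 0 ≤ α * ((x t2 - x t1)^2 + (y t2 - y t1)^2) := by positivity
  nlinarith

variable {u l : ℝ → ℝ}

/-- A special trapezoid straddling the tip. -/
theorem trap_clean (hu : Lip u) (hl : Lip l) {a b x1 x4 α σ : ℝ} (h1 : α^2 + σ^2 = 1) (h2 : 0 ≤ α) 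
    (h3 : α < 1) (ha : l a < u a) (hx1 : a < x1) (hx4 : b < x4)
    (e1 : x1 - a = α*(b - a) - σ*(l b - u a)) (e2 : u x1 - u a = α*(l b - u a) + σ*(b - a)) 
    (e3 : x4 - b = -(α*(b - a)) - σ*(l b - u a)) (e4 : l x4 - l b = -(α*(l b - u a)) + σ*(b - a)) : 
    0 ≤ f1 u l a b ∧ f2 u l a b ≤ 0 := by
  obtain ⟨w, hw⟩ : ∃ w, w = b - a := ⟨_, rfl⟩
  obtain ⟨h, hh⟩ : ∃ h, h = u a - l b := ⟨_, rfl⟩
  have eh : l b - u a = -h := by rw [hh]; ring
  rw [← hw, eh] at e1 e2 e3 e4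
  have k1 := (hu.le hx1.le)
  have k4 := (hl.le hx4.le)
  have s1 : 0 < σ * h := by linarith
  have s2 : |σ * w| ≤ 2/5 * (σ * h) := by
    rw [abs_le]
    constructor <;> linarith [k1.1, k1.2, k4.1, k4.2]
  rcases lt_trichotomy σ 0 with hσ | hσ | hσ
  · exfalso
    have hneg : h < 0 := by
      by_contra hcon
      push Not at hcon
      have := mul_nonpos_of_nonpos_of_nonneg hσ.le hcon
      linarith
    rw [abs_mul, abs_of_neg hσ] at s2
    have s3 : |w| ≤ -(2/5 * h) := by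
      have : (-σ) * |w| ≤ (-σ) * (-(2/5*h)) := by linarith
      exact le_of_mul_le_mul_left this (by linarith)
    have k5 := hl b a
    rw [← hw] at k5
    rw [abs_le] at k5
    linarith [k5.2]
  · rw [hσ] at s1
    linarith
  · have hpos : 0 < h := by
      by_contra hcon
      push Not at hcon
      have := mul_nonpos_of_nonneg_of_nonpos hσ.le hcon
      linarith
    rw [abs_mul, abs_of_pos hσ] at s2
    have s3 : |w| ≤ 2/5 * h := by
      have : σ * |w| ≤ σ * (2/5*h) := by linarith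
      exact le_of_mul_le_mul_left this hσ
    have hσ1 : σ ≤ 1 := by nlinarith
    have hσ2 : 1 - σ ≤ α := by nlinarith
    have hσ3 : 0 ≤ 1 - σ := by linarith
    have n1 : |α * w| ≤ α * (2/5*h) := by
      rw [abs_mul, abs_of_nonneg h2]
      exact mul_le_mul_of_nonneg_left s3 h2
    have n2 : |(1 - σ) * w| ≤ (1 - σ) * (2/5*h) := by
      rw [abs_mul, abs_of_nonneg hσ3]
      exact mul_le_mul_of_nonneg_left s3 hσ3
    have n3 : (1 - σ) * h ≤ α * h := mul_le_mul_of_nonneg_right hσ2 hpos.le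
    have n4 : 0 ≤ (1 - σ) * h := mul_nonneg hσ3 hpos.le
    have q1 := hu x1 (a + h)
    have q4 := hl x4 (b + h)
    have d1 : |x1 - (a + h)| ≤ α * (2/5*h) + (1 - σ) * h := by
      have : x1 - (a + h) = α * w - (1 - σ) * h := by linarith
      rw [this]
      rw [abs_le] at n1 ⊢
      constructor <;> linarith [n1.1, n1.2]
    have d4 : |x4 - (b + h)| ≤ α * (2/5*h) + (1 - σ) * h := by
      have : x4 - (b + h) = -(α * w) - (1 - σ) * h := by linarith
      rw [this]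
      rw [abs_le] at n1 ⊢
      constructor <;> linarith [n1.1, n1.2]
    rw [abs_le] at n1 n2 q1 q4
    unfold f1 f2
    rw [show a + u a - l b = a + h by rw [hh]; ring, show b + u a - l b = b + h by rw [hh]; ring]
    constructor
    · have : u a + b - a - u (a + h) = (u x1 - u (a + h)) + α * h + (1 - σ) * w := by linarith
      rw [this]
      linarith [q1.1, n2.1]
    · have : l b + b - a - l (b + h) = (l x4 - l (b + h)) - α * h + (1 - σ) * w := by linarith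
      rw [this]
      linarith [q4.2, n2.2]

/-- The arm as a graph. -/
lemma arm {x y : ℝ → ℝ} {S : Set ℝ} (hinj : InjOn x S) 
    (hs : ∀ s ∈ S, ∀ t ∈ S, |y s - y t| ≤ 2/5 * |x s - x t|) : 
    ∃ u : ℝ → ℝ, Lip u ∧ ∀ t ∈ S, u (x t) = y t := by
  have hinv : ∀ t ∈ S, Function.invFunOn x S (x t) = t := by
    intro t ht
    have h1 : ∃ a ∈ S, x a = x t := ⟨t, ht, rfl⟩
    exact hinj (Function.invFunOn_mem h1) ht (Function.invFunOn_eq h1)
  have hlip : LipschitzOnWith ⟨2/5, by norm_num⟩ (fun v => y (Function.invFunOn x S v)) (x '' S) := by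
    apply LipschitzOnWith.of_dist_le_mul
    rintro _ ⟨s, hs', rfl⟩ _ ⟨t, ht', rfl⟩
    simp only [hinv s hs', hinv t ht', Real.dist_eq]
    exact hs s hs' t ht'
  obtain ⟨g, hg, he⟩ := hlip.extend_real
  refine ⟨g, ?_, ?_⟩
  · intro a b
    have := hg.dist_le_mul a b
    rw [Real.dist_eq, Real.dist_eq] at this
    exact this
  · intro t ht
    rw [← he (mem_image_of_mem x ht)]
    simp only [hinv t ht]

/-- **Clean levels**: there are parameters arbitrarily close before the tip which are not the second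
parameter of a special trapezoid. -/
theorem horn_clean {x y : ℝ → ℝ} (hx : Continuous x) {τ ε : ℝ} (hε : 0 < ε) 
    (x0 : x τ = 0) (y0 : y τ = 0) (ha : StrictAntiOn x (Icc (τ-ε) τ)) 
    (hm : StrictMonoOn x (Icc τ (τ+ε))) 
    (sl : ∀ s ∈ Icc (τ-ε) τ, ∀ t ∈ Icc (τ-ε) τ, |y s - y t| ≤ 2/5 * |x s - x t|) 
    (sr : ∀ s ∈ Icc τ (τ+ε), ∀ t ∈ Icc τ (τ+ε), |y s - y t| ≤ 2/5 * |x s - x t|) 
    (hne : ∀ s ∈ Ico (τ-ε) τ, ∀ t ∈ Ioc τ (τ+ε), x s = x t → y s ≠ y t) {s₀ : ℝ} (hs₀ : s₀ < τ) : 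
    ∃ s, s₀ < s ∧ τ - ε < s ∧ s < τ ∧ ∀ t0 t2 t3, τ - ε ≤ t0 → t0 < s → τ < t2 → t2 < t3 → 
      t3 ≤ τ + ε → ¬ Spec x y t0 s t2 t3 := by
  obtain ⟨u, hu, hux⟩ := arm ha.injOn sl
  obtain ⟨l, hl, hlx⟩ := arm hm.injOn sr
  have mτl : τ ∈ Icc (τ-ε) τ := ⟨by linarith, le_rfl⟩
  have mτr : τ ∈ Icc τ (τ+ε) := ⟨le_rfl, by linarith⟩
  have u0 : u 0 = 0 := by
    have := hux τ mτl
    rwa [x0, y0] at this
  have l0 : l 0 = 0 := by
    have := hlx τ mτr
    rwa [x0, y0] at this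
  have mL : τ - ε ∈ Icc (τ-ε) τ := ⟨le_rfl, by linarith⟩
  have mR : τ + ε ∈ Icc τ (τ+ε) := ⟨by linarith, le_rfl⟩
  have xL : 0 < x (τ-ε) := by
    rw [← x0]; exact ha mL mτl (by linarith)
  have xR : 0 < x (τ+ε) := by
    rw [← x0]; exact hm mτr mR (by linarith)
  -- the two graphs do not meet
  have hXne : ∀ v, 0 < v → v ≤ x (τ-ε) → v ≤ x (τ+ε) → u v ≠ l v := by
    intro v hv h1 h2 he
    obtain ⟨s, hs, hsv⟩ : ∃ s ∈ Icc (τ-ε) τ, x s = v := by
      have := intermediate_value_Icc' (by linarith : τ - ε ≤ τ) hx.continuousOn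
      exact this ⟨by rw [x0]; exact hv.le, h1⟩
    obtain ⟨t, ht, htv⟩ : ∃ t ∈ Icc τ (τ+ε), x t = v := by
      have := intermediate_value_Icc (by linarith : τ ≤ τ + ε) hx.continuousOn
      exact this ⟨by rw [x0]; exact hv.le, h2⟩
    have hs1 : s < τ := by
      rcases hs.2.lt_or_eq with h | h
      · exact h
      · rw [h, x0] at hsv; linarith
    have ht1 : τ < t := by
      rcases ht.1.lt_or_eq with h | h
      · exact h
      · rw [← h, x0] at htv; linarith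
    apply hne s ⟨hs.1, hs1⟩ t ⟨ht1, ht.2⟩ (by rw [hsv, htv])
    rw [← hux s hs, ← hlx t ht, hsv, htv, he]
  -- reduction to `l < u`
  obtain ⟨X, hX, hXL, hXR⟩ : ∃ X, 0 < X ∧ X ≤ x (τ-ε) ∧ X ≤ x (τ+ε) := 
    ⟨min (x (τ-ε)) (x (τ+ε)), lt_min xL xR, min_le_left _ _, min_le_right _ _⟩
  have main : ∀ (y' u' l' : ℝ → ℝ), Lip u' → Lip l' → u' 0 = 0 → l' 0 = 0 → 
      (∀ v, 0 < v → v < X → l' v < u' v) → (∀ t ∈ Icc (τ-ε) τ, u' (x t) = y' t) → 
      (∀ t ∈ Icc τ (τ+ε), l' (x t) = y' t) → ∃ s, s₀ < s ∧ τ - ε < s ∧ s < τ ∧ ∀ t0 t2 t3, 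
      τ - ε ≤ t0 → t0 < s → τ < t2 → t2 < t3 → t3 ≤ τ + ε → ¬ Spec x y' t0 s t2 t3 := by
    intro y' u' l' hu' hl' u0' l0' hlt hux' hlx'
    set s₁ := max s₀ (τ-ε) with hs₁
    have hs₁' : s₁ < τ := max_lt hs₀ (by linarith)
    have hs₁m : s₁ ∈ Icc (τ-ε) τ := ⟨le_max_right _ _, hs₁'.le⟩
    have hxs₁ : 0 < x s₁ := by rw [← x0]; exact ha hs₁m mτl hs₁'
    set η := min X (x s₁) with hη
    have hη0 : 0 < η := lt_min hX hxs₁
    obtain ⟨a, ha0, haη, hcl⟩ := tip hu' hl' u0' l0' hη0 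
      (fun v h1 h2 => hlt v h1 (lt_of_lt_of_le h2 (min_le_left _ _)))
    obtain ⟨s, hs, hsa⟩ : ∃ s ∈ Icc s₁ τ, x s = a := by
      have := intermediate_value_Icc' hs₁'.le hx.continuousOn
      exact this ⟨by rw [x0]; exact ha0.le, (haη.trans_le (min_le_right _ _)).le⟩
    have hs2 : s₁ < s := by
      rcases hs.1.lt_or_eq with h | h
      · exact h
      · rw [← h] at hsa
        have := haη.trans_le (min_le_right X (x s₁))
        linarith
    have hs3 : s < τ := by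
      rcases hs.2.lt_or_eq with h | h
      · exact h
      · rw [h, x0] at hsa; linarith
    have hsm : s ∈ Icc (τ-ε) τ := ⟨(le_max_right _ _).trans hs2.le, hs3.le⟩
    refine ⟨s, (le_max_left _ _).trans_lt hs2, (le_max_right _ _).trans_lt hs2, hs3, ?_⟩
    rintro t0 t2 t3 h0 h0s h2 h23 h3 ⟨α, σ, q1, q2, q3, q4, q5, q6, q7⟩
    have m0 : t0 ∈ Icc (τ-ε) τ := ⟨h0, by linarith⟩
    have m2 : t2 ∈ Icc τ (τ+ε) := ⟨h2.le, by linarith⟩
    have m3 : t3 ∈ Icc τ (τ+ε) := ⟨by linarith, h3⟩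
    rw [← hux' t0 m0, ← hux' s hsm, ← hlx' t2 m2] at q5
    rw [← hux' s hsm, ← hlx' t2 m2] at q4 q6 q7
    rw [← hlx' t3 m3] at q7
    have c := trap_clean hu' hl' (a := x s) (b := x t2) (x1 := x t0) (x4 := x t3) q1 q2 q3 
      (by rw [hsa]; exact hlt a ha0 (haη.trans_le (min_le_left _ _))) 
      (ha m0 hsm h0s) (hm m2 m3 h23) q4 q5 q6 q7
    rw [hsa] at c
    have := hcl (x t2) c.1
    linarith [c.2]
  have hcu := hu.cont
  have hcl := hl.cont
  by_cases hsg : l (X/2) < u (X/2)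
  · apply main y u l hu hl u0 l0 _ hux hlx
    intro v hv hvX
    by_contra hcon
    push Not at hcon
    have hpc : IsPreconnected (Ioo 0 X) := isPreconnected_Ioo
    obtain ⟨z, hz, hze⟩ := hpc.intermediate_value (a := v) (b := X/2) ⟨hv, hvX⟩ 
      ⟨by linarith, by linarith⟩ (f := fun v => u v - l v) (by fun_prop) 
      (show (0:ℝ) ∈ Icc _ _ from ⟨by linarith, by linarith⟩)
    exact hXne z hz.1 (hz.2.le.trans hXL) (hz.2.le.trans hXR) (by simp only at hze; linarith)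
  · have hsg' : u (X/2) < l (X/2) := lt_of_le_of_ne (not_lt.mp hsg) 
      (hXne (X/2) (by linarith) (by linarith) (by linarith))
    have hnegLip : ∀ {g : ℝ → ℝ}, Lip g → Lip (fun v => -g v) := by
      intro g hg a b
      have := hg a b
      rw [show -g a - -g b = -(g a - g b) by ring, abs_neg]
      exact this
    obtain ⟨s, h1, h2, h3, h4⟩ := main (fun t => -y t) (fun v => -u v) (fun v => -l v) 
      (hnegLip hu) (hnegLip hl) (by simp [u0]) (by simp [l0]) 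
      (by
        intro v hv hvX
        by_contra hcon
        push Not at hcon
        have hpc : IsPreconnected (Ioo 0 X) := isPreconnected_Ioo
        obtain ⟨z, hz, hze⟩ := hpc.intermediate_value (a := X/2) (b := v) 
          ⟨by linarith, by linarith⟩ ⟨hv, hvX⟩ (f := fun v => u v - l v) (by fun_prop) 
          (show (0:ℝ) ∈ Icc _ _ from ⟨by linarith, by linarith⟩)
        exact hXne z hz.1 (hz.2.le.trans hXL) (hz.2.le.trans hXR) (by simp only at hze; linarith)) 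
      (by intro t ht; rw [hux t ht]) (by intro t ht; rw [hlx t ht])
    exact ⟨s, h1, h2, h3, fun t0 t2 t3 k1 k2 k3 k4 k5 k6 => h4 t0 t2 t3 k1 k2 k3 k4 k5 k6.neg⟩

end Pool.Agent.TH587
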