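import Mathlib
import Pool.Agent.H145R2.TRobust
import Pool.Agent.TH587.Horn2

/-!
Splitting of the special trapezoids of a Jordan curve by local cuts.
-/

namespace Pool.Agent.TH587

open H145R2.SqComb H145R2.TSq Set Filter Topology Complex

/-- `γ` is strictly monotone in the direction `e` near `τ`. -/
def MonoAt (γ : ℝ → ℂ) (τ : ℝ) (e : ℂ) (ε : ℝ) : Prop := 
  0 < ε ∧ StrictMonoOn (fun t => ((starRingEnd ℂ) e * γ t).re) (Ioo (τ-ε) (τ+ε))

/-- `γ` has a horn in the direction `e` at `τ`. -/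
structure HornAt (γ : ℝ → ℂ) (τ : ℝ) (e : ℂ) (ε : ℝ) : Prop where
  pos : 0 < ε
  anti : StrictAntiOn (fun t => ((starRingEnd ℂ) e * γ t).re) (Icc (τ-ε) τ)
  mono : StrictMonoOn (fun t => ((starRingEnd ℂ) e * γ t).re) (Icc τ (τ+ε))
  left : ∀ s ∈ Icc (τ-ε) τ, ∀ t ∈ Icc (τ-ε) τ, 
    |((starRingEnd ℂ) e * (γ s - γ t)).im| ≤ 2/5 * |((starRingEnd ℂ) e * (γ s - γ t)).re|
  right : ∀ s ∈ Icc τ (τ+ε), ∀ t ∈ Icc τ (τ+ε), 
    |((starRingEnd ℂ) e * (γ s - γ t)).im| ≤ 2/5 * |((starRingEnd ℂ) e * (γ s - γ t)).re|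

variable {γ : ℝ → ℂ} {δ : ℝ}

lemma spec_of_tr (hγ : Jor γ) (hδ : δ < 1) {p : E} (hp : Tr γ δ p) (e c : ℂ) : 
    Spec (fun t => ((starRingEnd ℂ) e * (γ t - c)).re) (fun t => ((starRingEnd ℂ) e * (γ t - c)).im) 
      p.1 p.2.1 p.2.2.1 p.2.2.2 := by
  obtain ⟨u, hu⟩ := hp.shape hγ hδ
  have h1 := hu.sq
  have h2 := hu.re1
  have h3 := hu.re0
  have e1 := hu.e1
  have e3 := hu.e3
  unfold bb at e1 e3
  have f1 : (starRingEnd ℂ) e * (γ p.1 - c) = (starRingEnd ℂ) e * (γ p.2.1 - c) - 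
      (((starRingEnd ℂ) e * (γ p.2.2.1 - c)) - ((starRingEnd ℂ) e * (γ p.2.1 - c))) * 
        (starRingEnd ℂ) u := by
    linear_combination (-(starRingEnd ℂ) e) * e1
  have f3 : (starRingEnd ℂ) e * (γ p.2.2.2 - c) = (starRingEnd ℂ) e * (γ p.2.2.1 - c) + 
      (((starRingEnd ℂ) e * (γ p.2.2.1 - c)) - ((starRingEnd ℂ) e * (γ p.2.1 - c))) * u := by
    linear_combination ((starRingEnd ℂ) e) * e3
  refine ⟨-u.re, u.im, by rw [neg_sq]; exact h1, by linarith, by linarith, ?_, ?_, ?_, ?_⟩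
  · simp only
    rw [f1]
    generalize (starRingEnd ℂ) e * (γ p.2.1 - c) = A
    generalize (starRingEnd ℂ) e * (γ p.2.2.1 - c) = B
    simp only [sub_re, mul_re, sub_im, conj_re, conj_im]
    ring
  · simp only
    rw [f1]
    generalize (starRingEnd ℂ) e * (γ p.2.1 - c) = A
    generalize (starRingEnd ℂ) e * (γ p.2.2.1 - c) = B
    simp only [sub_re, mul_im, sub_im, conj_re, conj_im]
    ring
  · simp only
    rw [f3]
    generalize (starRingEnd ℂ) e * (γ p.2.1 - c) = A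
    generalize (starRingEnd ℂ) e * (γ p.2.2.1 - c) = B
    simp only [add_re, sub_re, mul_re, sub_im]
    ring
  · simp only
    rw [f3]
    generalize (starRingEnd ℂ) e * (γ p.2.1 - c) = A
    generalize (starRingEnd ℂ) e * (γ p.2.2.1 - c) = B
    simp only [add_im, sub_re, mul_im, sub_im]
    ring

lemma tr_lt12 {p : E} (hp : Tr γ δ p) : p.2.1 < p.2.2.1 := by
  rcases eq_or_lt_of_le hp.1.2.1 with h | h
  · have h1 := hp.2
    have h2 : LL γ 1 p = LL γ 0 p := hp.1.2.2.2.2.1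
    rw [← h2, LL1, h, sub_self, norm_zero] at h1
    exact absurd h1 (lt_irrefl _)
  · exact h

lemma tr_of_ne (hγ : Jor γ) (hδ : δ < 1) {p : E} (hp : p ∈ XX γ δ) (hne : p.1 ≠ p.2.2.2) : 
    Tr γ δ p := by
  refine ⟨hp, ?_⟩
  by_contra hcon
  obtain ⟨h1, h2, h3, h4, h5, h6, -, -⟩ := hp
  have h0 : LL γ 0 p = 0 := le_antisymm (not_lt.mp hcon) (LL_nonneg 0 p)
  rw [h0] at h5 h6
  rw [LL0, norm_eq_zero, sub_eq_zero] at h0
  rw [LL1, norm_eq_zero, sub_eq_zero] at h5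
  rw [LL2, norm_eq_zero, sub_eq_zero] at h6
  have k : γ p.2.2.2 = γ p.1 := by rw [h6, h5, h0]
  exact hne (eq_of_inj hγ k (by linarith) (by linarith)).symm

lemma tr_mono {δ' : ℝ} (h : δ ≤ δ') {p : E} (hp : Tr γ δ p) : Tr γ δ' p := by
  obtain ⟨⟨h1, h2, h3, h4, h5⟩, h6⟩ := hp
  exact ⟨⟨h1, h2, h3, by linarith, h5⟩, h6⟩

/-- A cut around the diagonal point `τ`: a periodic open set of quadruples, without macroscopic
special trapezoids, with no nondegenerate special trapezoid on its boundary. -/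
def Sep (γ : ℝ → ℂ) (δ τ : ℝ) : Prop := ∃ O : Set E, IsOpen O ∧ (∀ t, sh t ∈ O ↔ t ∈ O) ∧ 
  ((τ, τ, τ, τ) : E) ∈ O ∧ (∀ p ∈ closure O, Tr γ δ p → p ∈ O) ∧ 
  ∀ p ∈ O, p ∈ XX γ δ → p.2.2.2 ≠ p.1 + δ

/-- **The splitting.** -/
theorem sep_rdata (hγ : Jor γ) (hδ : 0 < δ) (hδ2 : δ < 1/2) (hsep : ∀ τ, Sep γ δ τ) : 
    ∃ U V, RData γ δ U V := by
  choose O hO hsh hdiag hcl hmac using hsep
  have hcover : ∀ x : ℝ, x ∈ {y : ℝ | ((y, y, y, y) : E) ∈ O x} := fun x => hdiag x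
  have hopen : ∀ x : ℝ, IsOpen {y : ℝ | ((y, y, y, y) : E) ∈ O x} := fun x => 
    (hO x).preimage (by fun_prop)
  obtain ⟨F, hF⟩ := (isCompact_Icc (a := (0:ℝ)) (b := 1)).elim_finite_subcover 
    (fun x => {y : ℝ | ((y, y, y, y) : E) ∈ O x}) hopen 
    (fun x _ => mem_iUnion.mpr ⟨x, hcover x⟩)
  set Wt : Set E := ⋃ i ∈ F, O i with hWt
  have hWo : IsOpen Wt := isOpen_biUnion fun i _ => hO i
  have hWs : ∀ t, sh t ∈ Wt ↔ t ∈ Wt := by
    intro t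
    simp only [hWt, mem_iUnion, hsh]
  have hWd : ∀ x : ℝ, ((x, x, x, x) : E) ∈ Wt := by
    intro x
    have h1 : x + ((-⌊x⌋ : ℤ) : ℝ) ∈ Icc (0:ℝ) 1 := by
      push_cast
      exact ⟨by linarith [Int.floor_le x], by linarith [Int.lt_floor_add_one x]⟩
    have h2 := hF h1
    have h3 : shn (-⌊x⌋) ((x, x, x, x) : E) ∈ Wt := by
      simp only [mem_iUnion] at h2
      obtain ⟨i, hi, h⟩ := h2
      simp only [hWt, mem_iUnion]
      exact ⟨i, hi, h⟩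
    exact (shn_mem hWs _ _).mp h3
  have hWcl : ∀ p ∈ closure Wt, Tr γ δ p → p ∈ Wt := by
    intro p hp hT
    rw [hWt, Finset.closure_biUnion] at hp
    simp only [mem_iUnion] at hp
    obtain ⟨i, hi, h⟩ := hp
    simp only [hWt, mem_iUnion]
    exact ⟨i, hi, hcl i p h hT⟩
  have hXc := XX_closed (δ := δ) hγ
  have hVe : XX γ δ ∩ Wt = XX γ δ ∩ closure Wt := by
    ext p
    constructor
    · rintro ⟨h1, h2⟩
      exact ⟨h1, subset_closure h2⟩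
    · rintro ⟨h1, h2⟩
      refine ⟨h1, ?_⟩
      by_cases he : p.1 = p.2.2.2
      · have w0 := h1.1
        have w1 := h1.2.1
        have w2 := h1.2.2.1
        have : p = (p.1, p.1, p.1, p.1) := by
          obtain ⟨a, b, c, d⟩ := p
          simp only at he w0 w1 w2
          have e1 : b = a := by linarith
          have e2 : c = a := by linarith
          rw [e1, e2, ← he]
        rw [this]
        exact hWd _
      · exact hWcl p h2 (tr_of_ne hγ (by linarith) h1 he)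
  refine ⟨XX γ δ \ Wt, XX γ δ ∩ Wt, hγ, hδ, hδ2, ?_, ?_, ?_, ?_, ?_, ?_, ?_, ?_⟩
  · have : XX γ δ \ Wt = XX γ δ ∩ Wtᶜ := by ext; rfl
    rw [this]
    exact hXc.inter hWo.isClosed_compl
  · rw [hVe]
    exact hXc.inter isClosed_closure
  · rw [sdiff_union_inter]
  · exact disjoint_sdiff_inter
  · intro t
    rw [Set.mem_sdiff, Set.mem_sdiff, XX_sh hγ, hWs]
  · intro t
    rw [mem_inter_iff, mem_inter_iff, XX_sh hγ, hWs]
  · intro x
    exact ⟨XX_diag γ hδ x, hWd x⟩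
  · intro t ht hte
    refine ⟨ht, ?_⟩
    intro hW
    simp only [hWt, mem_iUnion] at hW
    obtain ⟨i, _, h⟩ := hW
    exact hmac i t h ht hte

lemma tr_sh (hγ : Jor γ) (p : E) : Tr γ δ (sh p) ↔ Tr γ δ p := by
  unfold Tr
  rw [XX_sh hγ, LL_sh hγ]

lemma tr_shn (hγ : Jor γ) (n : ℤ) (p : E) : Tr γ δ (shn n p) ↔ Tr γ δ p := 
  shn_mem (A := {p | Tr γ δ p}) (fun t => tr_sh hγ t) n p

/-- The union of the translates of a set. -/
def Per (A : Set E) : Set E := {p | ∃ n : ℤ, shn n p ∈ A}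

lemma shn_sh (n : ℤ) (p : E) : shn n (sh p) = shn (n+1) p := by
  unfold shn sh
  rw [add_assoc]
  congr 1
  ext <;> simp [add_comm]

lemma shn_cont (n : ℤ) : Continuous (shn n) := by
  unfold shn
  fun_prop

lemma Per_sh (A : Set E) (t : E) : sh t ∈ Per A ↔ t ∈ Per A := by
  constructor
  · rintro ⟨n, h⟩
    exact ⟨n+1, by rw [← shn_sh]; exact h⟩
  · rintro ⟨n, h⟩
    refine ⟨n-1, ?_⟩
    rw [shn_sh, sub_add_cancel]
    exact h

lemma Per_open {A : Set E} (hA : IsOpen A) : IsOpen (Per A) := by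
  have : Per A = ⋃ n : ℤ, shn n ⁻¹' A := by
    ext p
    simp [Per]
  rw [this]
  exact isOpen_iUnion fun n => hA.preimage (shn_cont n)

lemma Per_closure {A : Set E} {τ : ℝ} (hA : ∀ p ∈ A, |p.1 - τ| ≤ 1/4) {p : E} 
    (hp : p ∈ closure (Per A)) : ∃ n : ℤ, shn n p ∈ closure A := by
  rw [mem_closure_iff_seq_limit] at hp
  obtain ⟨x, hx, hlim⟩ := hp
  choose n hn using hx
  have l1 : Tendsto (fun k => (x k).1) atTop (𝓝 p.1) := (continuous_fst.tendsto p).comp hlim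
  have e1 : ∀ᶠ k in atTop, dist (x k).1 p.1 < 1/8 := (Metric.tendsto_nhds.mp l1) _ (by norm_num)
  obtain ⟨N, hN⟩ := eventually_atTop.mp e1
  have hconst : ∀ k ≥ N, n k = n N := by
    intro k hk
    have a1 := hN k hk
    have a2 := hN N le_rfl
    rw [Real.dist_eq, abs_lt] at a1 a2
    have b1 := hA _ (hn k)
    have b2 := hA _ (hn N)
    rw [shn_fst, abs_le] at b1 b2
    have c1 : ((n k : ℤ) : ℝ) - n N < 1 := by linarith [a1.1, a1.2, a2.1, a2.2, b1.1, b1.2, b2.1, b2.2]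
    have c2 : (-1 : ℝ) < ((n k : ℤ) : ℝ) - n N := by
      linarith [a1.1, a1.2, a2.1, a2.2, b1.1, b1.2, b2.1, b2.2]
    have d1 : n k - n N < 1 := by exact_mod_cast c1
    have d2 : -1 < n k - n N := by exact_mod_cast c2
    omega
  refine ⟨n N, ?_⟩
  rw [mem_closure_iff_seq_limit]
  refine ⟨fun k => shn (n N) (x (k + N)), ?_, ?_⟩
  · intro k
    have := hn (k + N)
    rw [hconst (k+N) (by omega)] at this
    exact this
  · exact ((shn_cont (n N)).tendsto p).comp (hlim.comp (tendsto_add_atTop_nat N))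

/-- A cut near one parameter gives a periodic cut. -/
lemma sep_of_local (hγ : Jor γ) {τ ρ : ℝ} (hρ : ρ ≤ 1/4) (hρδ : 2*ρ < δ) {A : Set E} (hA : IsOpen A) 
    (hτ : ((τ, τ, τ, τ) : E) ∈ A) (hAρ : ∀ p ∈ A, |p.1 - τ| ≤ ρ ∧ |p.2.2.2 - τ| ≤ ρ) 
    (hcl : ∀ p ∈ closure A, Tr γ δ p → p ∈ A) : Sep γ δ τ := by
  refine ⟨Per A, Per_open hA, Per_sh A, ⟨0, by rw [shn_zero]; exact hτ⟩, ?_, ?_⟩
  · intro p hp hT
    obtain ⟨n, hn⟩ := Per_closure (fun p hp => (hAρ p hp).1.trans hρ) hp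
    exact ⟨n, hcl _ hn ((tr_shn hγ n p).mpr hT)⟩
  · rintro p ⟨n, hn⟩ _ he
    obtain ⟨h1, h2⟩ := hAρ _ hn
    rw [shn_fst] at h1
    rw [shn_last] at h2
    rw [abs_le] at h1 h2
    linarith [h1.1, h1.2, h2.1, h2.2]

/-- No special trapezoid has its parameters in `(τ - ε, τ + ε)`. -/
def NoTrap (γ : ℝ → ℂ) (δ τ ε : ℝ) : Prop := 
  0 < ε ∧ ∀ p, Tr γ δ p → τ - ε < p.1 → p.2.2.2 < τ + ε → False

lemma noTrap_mono (hγ : Jor γ) (hδ : δ < 1) {τ : ℝ} {e : ℂ} {ε : ℝ} (h : MonoAt γ τ e ε) : 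
    NoTrap γ δ τ ε := by
  refine ⟨h.1, ?_⟩
  intro p hp h1 h2
  have hs := spec_of_tr hγ hδ hp e 0
  have l1 := hp.lt01
  have l2 := tr_lt12 hp
  have l3 := hp.lt23
  have m0 : p.1 ∈ Ioo (τ-ε) (τ+ε) := ⟨h1, by linarith⟩
  have m1 : p.2.1 ∈ Ioo (τ-ε) (τ+ε) := ⟨by linarith, by linarith⟩
  have m2 : p.2.2.1 ∈ Ioo (τ-ε) (τ+ε) := ⟨by linarith, by linarith⟩
  have m3 : p.2.2.2 ∈ Ioo (τ-ε) (τ+ε) := ⟨by linarith, h2⟩
  apply hs.no_mono
  · simp only [sub_zero]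
    exact h.2 m0 m1 l1
  · simp only [sub_zero]
    exact h.2 m1 m2 l2
  · simp only [sub_zero]
    exact h.2 m2 m3 l3

lemma sep_noTrap (hγ : Jor γ) (hδ : 0 < δ) {τ ε : ℝ} (h : NoTrap γ δ τ ε) : Sep γ δ τ := by
  obtain ⟨ρ, hρ0, hρ4, hρδ, hρε⟩ : ∃ ρ, 0 < ρ ∧ ρ ≤ 1/4 ∧ 2*ρ < δ ∧ ρ < ε := by
    refine ⟨min (1/4) (min (δ/4) (ε/2)), ?_, min_le_left _ _, ?_, ?_⟩
    · have := h.1
      positivity
    · have := (min_le_right (1/4) (min (δ/4) (ε/2))).trans (min_le_left _ _)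
      linarith
    · have := (min_le_right (1/4) (min (δ/4) (ε/2))).trans (min_le_right _ _)
      linarith [h.1]
  refine sep_of_local hγ hρ4 hρδ (A := {p : E | |p.1 - τ| < ρ ∧ |p.2.2.2 - τ| < ρ}) ?_ ?_ ?_ ?_
  · have e : {p : E | |p.1 - τ| < ρ ∧ |p.2.2.2 - τ| < ρ} = 
        {p : E | |p.1 - τ| < ρ} ∩ {p : E | |p.2.2.2 - τ| < ρ} := by ext p; rfl
    rw [e]
    exact (isOpen_lt (by fun_prop) (by fun_prop)).inter (isOpen_lt (by fun_prop) (by fun_prop))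
  · simp [hρ0]
  · rintro p ⟨h1, h2⟩
    exact ⟨h1.le, h2.le⟩
  · intro p hp hT
    exfalso
    have hsub : closure {p : E | |p.1 - τ| < ρ ∧ |p.2.2.2 - τ| < ρ} ⊆ 
        {p : E | |p.1 - τ| ≤ ρ} ∩ {p : E | |p.2.2.2 - τ| ≤ ρ} := by
      apply closure_minimal
      · rintro p ⟨h1, h2⟩
        exact ⟨h1.le, h2.le⟩
      · exact (isClosed_le (by fun_prop) (by fun_prop)).inter 
          (isClosed_le (by fun_prop) (by fun_prop))
    obtain ⟨h1, h2⟩ := hsub hp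
    simp only [mem_ofPred_eq] at h1 h2
    rw [abs_le] at h1 h2
    exact h.2 p hT (by linarith [h1.1]) (by linarith [h2.2])

/-- A radius `r` such that no special trapezoid has exactly the radius `r` around `γ τ`. -/
lemma sep_radius (hγ : Jor γ) {τ r : ℝ} (hr : 0 < r) 
    (hgap : ∀ t, 2*r < ‖γ t - γ (t + δ)‖) 
    (h : ∀ p, Tr γ δ p → max (max ‖γ p.1 - γ τ‖ ‖γ p.2.1 - γ τ‖) 
      (max ‖γ p.2.2.1 - γ τ‖ ‖γ p.2.2.2 - γ τ‖) ≠ r) : Sep γ δ τ := by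
  have hc := hγ.cont
  set R : E → ℝ := fun p => max (max ‖γ p.1 - γ τ‖ ‖γ p.2.1 - γ τ‖) 
      (max ‖γ p.2.2.1 - γ τ‖ ‖γ p.2.2.2 - γ τ‖) with hR
  have hRc : Continuous R := by
    rw [hR]
    fun_prop
  refine ⟨{p | R p < r}, isOpen_lt hRc continuous_const, ?_, ?_, ?_, ?_⟩
  · rintro ⟨a, b, c, d⟩
    simp only [sh_mk, mem_ofPred_eq, hR, hγ.per]
  · simp [hR, hr]
  · intro p hp hT
    have h1 : R p ≤ r := closure_lt_subset_le hRc continuous_const hp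
    exact lt_of_le_of_ne h1 (h p hT)
  · intro p hp _ he
    have h1 : ‖γ p.1 - γ τ‖ < r := ((le_max_left _ _).trans (le_max_left _ _)).trans_lt hp
    have h2 : ‖γ p.2.2.2 - γ τ‖ < r := ((le_max_right _ _).trans (le_max_right _ _)).trans_lt hp
    have h3 := hgap p.1
    rw [← he] at h3
    have h4 : ‖γ p.1 - γ p.2.2.2‖ ≤ ‖γ p.1 - γ τ‖ + ‖γ p.2.2.2 - γ τ‖ := by
      rw [show γ p.1 - γ p.2.2.2 = (γ p.1 - γ τ) - (γ p.2.2.2 - γ τ) by ring]
      exact norm_sub_le _ _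
    linarith

/-- Horns. -/
lemma sep_horn (hγ : Jor γ) (hδ0 : 0 < δ) (hδ2 : δ < 1/2) {τ : ℝ} {e : ℂ} {ε : ℝ} 
    (h : HornAt γ τ e ε) : Sep γ δ τ := by
  obtain ⟨ρ, hρ0, hρ4, hρδ, hρε⟩ : ∃ ρ, 0 < ρ ∧ ρ ≤ 1/4 ∧ 2*ρ < δ ∧ ρ ≤ ε := by
    refine ⟨min (1/4) (min (δ/4) (ε/2)), ?_, min_le_left _ _, ?_, ?_⟩
    · have := h.pos
      positivity
    · have := (min_le_right (1/4) (min (δ/4) (ε/2))).trans (min_le_left _ _)
      linarith
    · have := (min_le_right (1/4) (min (δ/4) (ε/2))).trans (min_le_right _ _)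
      linarith [h.pos]
  have sL : ∀ t ∈ Icc (τ-ρ) τ, t ∈ Icc (τ-ε) τ := fun t ht => ⟨by linarith [ht.1], ht.2⟩
  have sR : ∀ t ∈ Icc τ (τ+ρ), t ∈ Icc τ (τ+ε) := fun t ht => ⟨ht.1, by linarith [ht.2]⟩
  set x : ℝ → ℝ := fun t => ((starRingEnd ℂ) e * (γ t - γ τ)).re with hx
  set y : ℝ → ℝ := fun t => ((starRingEnd ℂ) e * (γ t - γ τ)).im with hy
  have ex : ∀ s t, x s - x t = ((starRingEnd ℂ) e * (γ s - γ t)).re := by
    intro s t
    simp only [hx]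
    rw [← sub_re]
    congr 1; ring
  have ey : ∀ s t, y s - y t = ((starRingEnd ℂ) e * (γ s - γ t)).im := by
    intro s t
    simp only [hy]
    rw [← sub_im]
    congr 1; ring
  have ex2 : ∀ s t, x s - x t = ((starRingEnd ℂ) e * γ s).re - ((starRingEnd ℂ) e * γ t).re := by
    intro s t
    rw [ex, ← sub_re]
    congr 1; ring
  have ha : StrictAntiOn x (Icc (τ-ρ) τ) := by
    intro s hs t ht hst
    have := h.anti (sL s hs) (sL t ht) hst
    have k := ex2 s t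
    simp only at this
    linarith
  have hm : StrictMonoOn x (Icc τ (τ+ρ)) := by
    intro s hs t ht hst
    have := h.mono (sR s hs) (sR t ht) hst
    have k := ex2 s t
    simp only at this
    linarith
  have sl : ∀ s ∈ Icc (τ-ρ) τ, ∀ t ∈ Icc (τ-ρ) τ, |y s - y t| ≤ 2/5 * |x s - x t| := by
    intro s hs t ht
    rw [ex, ey]
    exact h.left s (sL s hs) t (sL t ht)
  have sr : ∀ s ∈ Icc τ (τ+ρ), ∀ t ∈ Icc τ (τ+ρ), |y s - y t| ≤ 2/5 * |x s - x t| := by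
    intro s hs t ht
    rw [ex, ey]
    exact h.right s (sR s hs) t (sR t ht)
  have hcont : Continuous x := by
    have := hγ.cont
    fun_prop
  have he : (starRingEnd ℂ) e ≠ 0 := by
    intro h0
    have := h.mono (a := τ) ⟨le_rfl, by linarith [h.pos]⟩ (b := τ+ε) ⟨by linarith [h.pos], le_rfl⟩ 
      (by linarith [h.pos])
    simp only [h0, zero_mul] at this
    exact lt_irrefl _ this
  have hne : ∀ s ∈ Ico (τ-ρ) τ, ∀ t ∈ Ioc τ (τ+ρ), x s = x t → y s ≠ y t := by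
    intro s hs t ht hxe hye
    have : γ t = γ s := by
      have k : (starRingEnd ℂ) e * (γ t - γ s) = 0 := by
        apply Complex.ext
        · rw [← ex, hxe, sub_self, zero_re]
        · rw [← ey, hye, sub_self, zero_im]
      rcases mul_eq_zero.mp k with k | k
      · exact absurd k he
      · exact sub_eq_zero.mp k
    have := eq_of_inj hγ this (by linarith [hs.2, ht.1]) (by linarith [hs.1, ht.2])
    linarith [hs.2, ht.1]
  -- special trapezoids near the tip straddle it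
  have hspan : ∀ p, Tr γ δ p → τ - ρ ≤ p.1 → p.2.2.2 ≤ τ + ρ → p.2.1 < τ ∧ τ < p.2.2.1 := by
    intro p hp h1 h2
    have hs := spec_of_tr hγ (by linarith) hp e (γ τ)
    have l1 := hp.lt01
    have l2 := tr_lt12 hp
    have l3 := hp.lt23
    refine ⟨?_, ?_⟩
    · by_contra hcon
      push Not at hcon
      have m1 : p.2.1 ∈ Icc τ (τ+ρ) := ⟨hcon, by linarith⟩
      have m2 : p.2.2.1 ∈ Icc τ (τ+ρ) := ⟨by linarith, by linarith⟩
      have m3 : p.2.2.2 ∈ Icc τ (τ+ρ) := ⟨by linarith, by linarith⟩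
      exact hs.no_right (hm m1 m2 l2) (hm m2 m3 l3) (sr _ m2 _ m1) (sr _ m3 _ m2)
    · by_contra hcon
      push Not at hcon
      have m0 : p.1 ∈ Icc (τ-ρ) τ := ⟨by linarith, by linarith⟩
      have m1 : p.2.1 ∈ Icc (τ-ρ) τ := ⟨by linarith, by linarith⟩
      have m2 : p.2.2.1 ∈ Icc (τ-ρ) τ := ⟨by linarith, hcon⟩
      exact hs.no_left (ha m0 m1 l1) (ha m1 m2 l2) (sl _ m0 _ m1) (sl _ m1 _ m2)
  -- the trapezoids touching the boundary of the zone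
  obtain ⟨m, hm', hmac⟩ : ∃ m < τ, ∀ p, Tr γ δ p → τ - ρ ≤ p.1 → p.2.2.2 ≤ τ + ρ → 
      (p.1 = τ - ρ ∨ p.2.2.2 = τ + ρ) → p.2.1 ≤ m := by
    set K : Set E := {p | p ∈ XX γ δ ∧ τ - ρ ≤ p.1 ∧ p.2.2.2 ≤ τ + ρ ∧ p.2.1 ≤ τ ∧ τ ≤ p.2.2.1 ∧ 
      (p.1 = τ - ρ ∨ p.2.2.2 = τ + ρ)} with hK
    have hKc : IsCompact K := by
      have hc : IsClosed K := by
        have e : K = XX γ δ ∩ ({p : E | τ - ρ ≤ p.1} ∩ ({p : E | p.2.2.2 ≤ τ + ρ} ∩ 
            ({p : E | p.2.1 ≤ τ} ∩ ({p : E | τ ≤ p.2.2.1} ∩ 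
            ({p : E | p.1 = τ - ρ} ∪ {p : E | p.2.2.2 = τ + ρ}))))) := by
          ext p; rfl
        rw [e]
        exact (XX_closed hγ).inter ((isClosed_le (by fun_prop) (by fun_prop)).inter 
          ((isClosed_le (by fun_prop) (by fun_prop)).inter 
          ((isClosed_le (by fun_prop) (by fun_prop)).inter 
          ((isClosed_le (by fun_prop) (by fun_prop)).inter 
          ((isClosed_eq (by fun_prop) (by fun_prop)).union 
          (isClosed_eq (by fun_prop) (by fun_prop)))))))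
      have hk : IsCompact (Icc (τ-ρ) (τ+ρ) ×ˢ (Icc (τ-ρ) (τ+ρ) ×ˢ (Icc (τ-ρ) (τ+ρ) ×ˢ 
          Icc (τ-ρ) (τ+ρ)))) := 
        isCompact_Icc.prod (isCompact_Icc.prod (isCompact_Icc.prod isCompact_Icc))
      refine hk.of_isClosed_subset hc ?_
      rintro ⟨a, b, c, d⟩ ⟨⟨h1, h2, h3, h4, -⟩, h5, h6, h7, h8, -⟩
      simp only at h1 h2 h3 h4 h5 h6 h7 h8
      refine ⟨⟨by simp only; linarith, by simp only; linarith⟩, 
        ⟨by simp only; linarith, by simp only; linarith⟩, 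
        ⟨by simp only; linarith, by simp only; linarith⟩, 
        ⟨by simp only; linarith, by simp only; linarith⟩⟩
    rcases K.eq_empty_or_nonempty with hKe | hKne
    · refine ⟨τ - 1, by linarith, ?_⟩
      intro p h1 h2 h3 h4
      obtain ⟨k1, k2⟩ := hspan p h1 h2 h3
      have : p ∈ K := ⟨h1.1, h2, h3, k1.le, k2.le, h4⟩
      rw [hKe] at this
      exact absurd this (notMem_empty _)
    · obtain ⟨p₀, hp₀, hmax⟩ := hKc.exists_isMaxOn hKne 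
        (show Continuous fun p : E => p.2.1 by fun_prop).continuousOn
      refine ⟨p₀.2.1, ?_, ?_⟩
      · obtain ⟨h1, h2, h3, h4, h5, h6⟩ := hp₀
        have w0 := h1.1
        have w1 := h1.2.1
        have w2 := h1.2.2.1
        have hT := tr_of_ne hγ (by linarith) h1 (by
          intro heq
          rcases h6 with h6 | h6 <;> linarith)
        exact (hspan _ hT h2 h3).1
      · intro p h1 h2 h3 h4
        obtain ⟨k1, k2⟩ := hspan p h1 h2 h3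
        exact hmax ⟨h1.1, h2, h3, k1.le, k2.le, h4⟩
  obtain ⟨s, k1, k2, k3, k4⟩ := horn_clean hcont hρ0 (by simp [hx]) (by simp [hy]) ha hm sl sr 
    hne hm'
  refine sep_of_local hγ hρ4 hρδ 
    (A := {p : E | τ - ρ < p.1 ∧ p.1 < τ + ρ ∧ s < p.2.1 ∧ τ - ρ < p.2.2.2 ∧ p.2.2.2 < τ + ρ}) 
    ?_ ?_ ?_ ?_
  · have e : {p : E | τ - ρ < p.1 ∧ p.1 < τ + ρ ∧ s < p.2.1 ∧ τ - ρ < p.2.2.2 ∧ p.2.2.2 < τ + ρ} = 
        {p : E | τ - ρ < p.1} ∩ ({p : E | p.1 < τ + ρ} ∩ ({p : E | s < p.2.1} ∩ 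
        ({p : E | τ - ρ < p.2.2.2} ∩ {p : E | p.2.2.2 < τ + ρ}))) := by
      ext p; rfl
    rw [e]
    exact (isOpen_lt (by fun_prop) (by fun_prop)).inter ((isOpen_lt (by fun_prop) 
      (by fun_prop)).inter ((isOpen_lt (by fun_prop) (by fun_prop)).inter 
      ((isOpen_lt (by fun_prop) (by fun_prop)).inter (isOpen_lt (by fun_prop) (by fun_prop)))))
  · exact ⟨by simp only; linarith, by simp only; linarith, by simp only; linarith, 
      by simp only; linarith, by simp only; linarith⟩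
  · rintro p ⟨h1, h2, h3, h4, h5⟩
    rw [abs_le, abs_le]
    refine ⟨⟨by linarith, by linarith⟩, ⟨by linarith, by linarith⟩⟩
  · intro p hp hT
    have hsub : closure {p : E | τ - ρ < p.1 ∧ p.1 < τ + ρ ∧ s < p.2.1 ∧ τ - ρ < p.2.2.2 ∧ 
        p.2.2.2 < τ + ρ} ⊆ {p : E | τ - ρ ≤ p.1} ∩ ({p : E | s ≤ p.2.1} ∩ 
        {p : E | p.2.2.2 ≤ τ + ρ}) := by
      apply closure_minimal
      · rintro p ⟨h1, h2, h3, h4, h5⟩
        exact ⟨h1.le, h3.le, h5.le⟩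
      · exact (isClosed_le (by fun_prop) (by fun_prop)).inter ((isClosed_le (by fun_prop) 
          (by fun_prop)).inter (isClosed_le (by fun_prop) (by fun_prop)))
    obtain ⟨h1, h2, h3⟩ := hsub hp
    simp only [mem_ofPred_eq] at h1 h2 h3
    obtain ⟨q1, q2⟩ := hspan p hT h1 h3
    have l1 := hT.lt01
    have l3 := hT.lt23
    have hs := spec_of_tr hγ (by linarith) hT e (γ τ)
    -- the second parameter is not `s`
    have n1 : p.2.1 ≠ s := by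
      intro heq
      rw [heq] at hs l1
      exact k4 p.1 p.2.2.1 p.2.2.2 h1 l1 q2 l3 h3 hs
    have n2 : s < p.2.1 := lt_of_le_of_ne h2 (Ne.symm n1)
    have n3 : ¬ (p.1 = τ - ρ ∨ p.2.2.2 = τ + ρ) := by
      intro hor
      have := hmac p hT h1 h3 hor
      linarith
    push Not at n3
    exact ⟨lt_of_le_of_ne h1 (Ne.symm n3.1), by linarith, n2, by linarith, 
      lt_of_le_of_ne h3 n3.2⟩

/-- **Squares from cuts**, also in all Jordan curves nearby. -/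
theorem sep_robust (hγ : Jor γ) (hδ : 0 < δ) (hδ2 : δ < 1/2) (hsep : ∀ τ, Sep γ δ τ) : 
    ∃ ε > 0, ∀ γ' : ℝ → ℂ, Jor γ' → (∀ t, ‖γ' t - γ t‖ ≤ ε) → 
      ∃ z w : ℂ, w ≠ 0 ∧ z ∈ Set.range γ' ∧ z + w ∈ Set.range γ' ∧ 
      z + w + I * w ∈ Set.range γ' ∧ z + I * w ∈ Set.range γ' := by
  obtain ⟨U, V, hR⟩ := sep_rdata hγ hδ hδ2 hsep
  obtain ⟨ε, hε, h⟩ := hR.robust
  refine ⟨ε, hε, ?_⟩
  intro γ' hγ' hclose
  obtain ⟨U', V', hR'⟩ := h γ' hγ' hclose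
  exact square_of_rdata hR'

end Pool.Agent.TH587
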