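import Mathlib
import Pool.Agent.TH587.Horn3

/-!
Local conditions which exclude small special trapezoids, and strict one-sided derivatives.
-/

namespace Pool.Agent.TH587

open H145R2.SqComb H145R2.TSq Set Filter Topology Complex

variable {γ : ℝ → ℂ} {δ : ℝ}

/-- The three point condition with a constant smaller than `1 + √2` excludes special trapezoids. -/
lemma noTrap_three (hγ : Jor γ) (hδ : δ < 1) {τ ε K : ℝ} (hε : 0 < ε) (hK : K < 1 + Real.sqrt 2) 
    (h : ∀ s ∈ Ioo (τ-ε) (τ+ε), ∀ t ∈ Ioo (τ-ε) (τ+ε), ∀ v ∈ Ioo (τ-ε) (τ+ε), s < t → t < v → 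
      ‖γ s - γ t‖ + ‖γ t - γ v‖ ≤ K * ‖γ s - γ v‖) : NoTrap γ δ τ ε := by
  refine ⟨hε, ?_⟩
  intro p hp h1 h2
  obtain ⟨u, hu⟩ := hp.shape hγ hδ
  have l1 := hp.lt01
  have l2 := tr_lt12 hp
  have l3 := hp.lt23
  have m0 : p.1 ∈ Ioo (τ-ε) (τ+ε) := ⟨h1, by linarith⟩
  have m1 : p.2.1 ∈ Ioo (τ-ε) (τ+ε) := ⟨by linarith, by linarith⟩
  have m2 : p.2.2.1 ∈ Ioo (τ-ε) (τ+ε) := ⟨by linarith, by linarith⟩
  have m3 : p.2.2.2 ∈ Ioo (τ-ε) (τ+ε) := ⟨by linarith, h2⟩
  have hs := hp.2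
  set s := LL γ 0 p with hsdef
  set c := u.re with hc
  obtain ⟨r, hr⟩ : ∃ r, r = ‖1 + u‖ := ⟨_, rfl⟩
  have hrc : ‖1 + (starRingEnd ℂ) u‖ = r := by
    rw [hr, ← RCLike.norm_conj (1 + u)]
    simp
  have hr0 : 0 ≤ r := by rw [hr]; exact norm_nonneg _
  have hr2 : r^2 = 2*(1+c) := by
    rw [hr, ← Complex.normSq_eq_norm_sq, normSq_apply, add_re, add_im, one_re, one_im]
    linear_combination hu.sq
  have n01 : ‖γ p.1 - γ p.2.1‖ = s := by rw [norm_sub_rev]; rfl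
  have n12 : ‖γ p.2.1 - γ p.2.2.1‖ = s := by
    rw [norm_sub_rev]
    exact hu.nb
  have n02 : ‖γ p.1 - γ p.2.2.1‖ = s * r := by
    rw [norm_sub_rev, hu.e02, norm_mul, hrc, hu.nb]
  have n13 : ‖γ p.2.1 - γ p.2.2.2‖ = s * r := by
    rw [norm_sub_rev, hu.e13, norm_mul, ← hr, hu.nb]
  have n03 : ‖γ p.1 - γ p.2.2.2‖ = s * |1 + 2*c| := by
    rw [norm_sub_rev, hu.e03, norm_mul, hu.nb, Complex.norm_real, Real.norm_eq_abs]
  have hc0 : c ≤ 0 := hu.re0
  have hc1 : -1 < c := hu.re1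
  obtain ⟨q, hq⟩ : ∃ q, q = Real.sqrt 2 := ⟨_, rfl⟩
  have hq0 : 0 ≤ q := by rw [hq]; exact Real.sqrt_nonneg _
  have hq2 : q^2 = 2 := by rw [hq]; exact Real.sq_sqrt (by norm_num)
  have hq3 : q < 1.4143 := by nlinarith
  rw [← hq] at hK
  rcases le_total (-7/10) c with hcase | hcase
  · have k := h _ m0 _ m1 _ m3 l1 (l2.trans l3)
    rw [n01, n13, n03] at k
    have k' : 1 + r ≤ K * |1 + 2*c| := by
      have : s * (1 + r) ≤ s * (K * |1 + 2*c|) := by linarith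
      exact le_of_mul_le_mul_left this hs
    have hrq : q * (1 + c) ≤ r := by
      have e : (q * (1+c))^2 ≤ r^2 := by
        rw [mul_pow, hq2, hr2]
        nlinarith
      exact abs_le_of_sq_le_sq' e hr0 |>.2
    have hmain : (1 + q) * |1 + 2*c| ≤ 1 + r := by
      rcases le_total 0 (1 + 2*c) with h0 | h0
      · rw [abs_of_nonneg h0]
        nlinarith
      · rw [abs_of_nonpos h0]
        nlinarith
    have h5 : (1 + q - K) * |1 + 2*c| ≤ 0 := by linarith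
    have h6 : |1 + 2*c| ≤ 0 := by
      by_contra hcon
      push Not at hcon
      have := mul_pos (sub_pos.mpr hK) hcon
      linarith
    have h7 : |1 + 2*c| = 0 := le_antisymm h6 (abs_nonneg _)
    rw [h7] at k'
    linarith
  · have k := h _ m0 _ m1 _ m2 l1 l2
    rw [n01, n12, n02] at k
    have k' : 2 ≤ K * r := by
      have : s * 2 ≤ s * (K * r) := by linarith
      exact le_of_mul_le_mul_left this hs
    have hr3 : r < 0.775 := by
      by_contra hcon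
      push Not at hcon
      nlinarith
    have : K * r ≤ (1 + q) * r := mul_le_mul_of_nonneg_right hK.le hr0
    nlinarith

/-- The radius condition in explicit form. -/
lemma sep_radius' (hγ : Jor γ) {τ r : ℝ} (hr : 0 < r) 
    (hgap : ∀ t, 2*r < ‖γ t - γ (t + δ)‖) 
    (h : ∀ t₀ t₁ t₂ t₃, t₀ < t₁ → t₁ < t₂ → t₂ < t₃ → t₃ ≤ t₀ + δ → 
      ‖γ t₂ - γ t₁‖ = ‖γ t₁ - γ t₀‖ → ‖γ t₃ - γ t₂‖ = ‖γ t₁ - γ t₀‖ → 
      ‖γ t₀ - γ t₃‖ ≤ ‖γ t₁ - γ t₀‖ → ‖γ t₂ - γ t₀‖ = ‖γ t₃ - γ t₁‖ → 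
      max (max ‖γ t₀ - γ τ‖ ‖γ t₁ - γ τ‖) (max ‖γ t₂ - γ τ‖ ‖γ t₃ - γ τ‖) ≠ r) : Sep γ δ τ := by
  refine sep_radius hγ hr hgap ?_
  intro p hp
  have l1 := hp.lt01
  have l2 := tr_lt12 hp
  have l3 := hp.lt23
  obtain ⟨⟨-, -, -, h4, h5, h6, h7, h8⟩, -⟩ := hp
  exact h _ _ _ _ l1 l2 l3 h4 h5 h6 h7 (by unfold ff at h8; linarith)

/-- Strict one-sided derivatives. -/
structure TanAt (γ : ℝ → ℂ) (τ : ℝ) (v₁ v₂ : ℂ) : Prop where
  ne₁ : v₁ ≠ 0
  ne₂ : v₂ ≠ 0
  left : ∀ c > 0, ∃ ε > 0, ∀ s t, τ - ε < s → s < t → t ≤ τ → 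
    ‖γ t - γ s - ((t - s : ℝ) : ℂ) * v₁‖ ≤ c * (t - s)
  right : ∀ c > 0, ∃ ε > 0, ∀ s t, τ ≤ s → s < t → t < τ + ε → 
    ‖γ t - γ s - ((t - s : ℝ) : ℂ) * v₂‖ ≤ c * (t - s)

lemma tan_est {a b v e : ℂ} {h c : ℝ} (H : ‖b - a - (h : ℂ) * v‖ ≤ c * h) : 
    |((starRingEnd ℂ) e * (b - a)).re - h * ((starRingEnd ℂ) e * v).re| ≤ ‖e‖ * (c * h) ∧ 
    |((starRingEnd ℂ) e * (b - a)).im - h * ((starRingEnd ℂ) e * v).im| ≤ ‖e‖ * (c * h) := by
  have key : ‖(starRingEnd ℂ) e * (b - a - (h:ℂ) * v)‖ ≤ ‖e‖ * (c * h) := by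
    rw [norm_mul, RCLike.norm_conj]
    exact mul_le_mul_of_nonneg_left H (norm_nonneg _)
  have e1 : (starRingEnd ℂ) e * (b - a - (h:ℂ) * v) = 
      (starRingEnd ℂ) e * (b - a) - (h:ℂ) * ((starRingEnd ℂ) e * v) := by ring
  rw [e1] at key
  constructor
  · have k := (abs_re_le_norm _).trans key
    rwa [sub_re, re_ofReal_mul] at k
  · have k := (abs_im_le_norm _).trans key
    rwa [sub_im, im_ofReal_mul] at k

lemma tan_cases (hγ : Jor γ) (hδ : δ < 1) {τ : ℝ} {v₁ v₂ : ℂ} (h : TanAt γ τ v₁ v₂) : 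
    (∃ ε, NoTrap γ δ τ ε) ∨ (∃ e ε, HornAt γ τ e ε) := by
  have p1 : 0 < ‖v₁‖ := norm_pos_iff.mpr h.ne₁
  have p2 : 0 < ‖v₂‖ := norm_pos_iff.mpr h.ne₂
  by_cases hn : (‖v₂‖ : ℂ) * v₁ + (‖v₁‖ : ℂ) * v₂ = 0
  · -- a cusp
    right
    set c := min ‖v₁‖ ‖v₂‖ / 4 with hc
    have hc0 : 0 < c := by rw [hc]; have := lt_min p1 p2; positivity
    have hc1 : c ≤ ‖v₁‖/4 := by rw [hc]; have := min_le_left ‖v₁‖ ‖v₂‖; linarith
    have hc2 : c ≤ ‖v₂‖/4 := by rw [hc]; have := min_le_right ‖v₁‖ ‖v₂‖; linarith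
    obtain ⟨ε₁, hε₁, H1⟩ := h.left c hc0
    obtain ⟨ε₂, hε₂, H2⟩ := h.right c hc0
    set ε := min ε₁ ε₂ / 2 with hε
    have hε0 : 0 < ε := by rw [hε]; have := lt_min hε₁ hε₂; positivity
    have hεl : ε < ε₁ := by rw [hε]; have := min_le_left ε₁ ε₂; linarith
    have hεr : ε < ε₂ := by rw [hε]; have := min_le_right ε₁ ε₂; linarith
    have hv22 : (starRingEnd ℂ) v₂ * v₂ = ((‖v₂‖^2 : ℝ) : ℂ) := by
      rw [mul_comm, Complex.mul_conj, Complex.normSq_eq_norm_sq]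
    have hv21 : (starRingEnd ℂ) v₂ * v₁ = ((-(‖v₁‖ * ‖v₂‖) : ℝ) : ℂ) := by
      have hne : (‖v₂‖ : ℂ) ≠ 0 := by exact_mod_cast p2.ne'
      apply mul_left_cancel₀ hne
      have : (‖v₂‖ : ℂ) * ((starRingEnd ℂ) v₂ * v₁) = 
        (starRingEnd ℂ) v₂ * ((‖v₂‖ : ℂ) * v₁ + (‖v₁‖ : ℂ) * v₂) - 
          (‖v₁‖ : ℂ) * ((starRingEnd ℂ) v₂ * v₂) := by ring
      rw [this, hn, hv22]
      push_cast
      ring
    have R : ∀ s ∈ Icc τ (τ+ε), ∀ t ∈ Icc τ (τ+ε), s < t → 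
        0 < ((starRingEnd ℂ) v₂ * (γ t - γ s)).re ∧ |((starRingEnd ℂ) v₂ * (γ t - γ s)).im| ≤ 
        2/5 * ((starRingEnd ℂ) v₂ * (γ t - γ s)).re := by
      intro s hs t ht hst
      obtain ⟨k1, k2⟩ := tan_est (e := v₂) (H2 s t hs.1 hst (by linarith [ht.2]))
      rw [hv22, ofReal_re] at k1
      rw [hv22, ofReal_im, mul_zero, sub_zero] at k2
      have hd : 0 < t - s := by linarith
      have q1 : ‖v₂‖ * (c * (t - s)) ≤ 1/4 * (‖v₂‖^2 * (t - s)) := by
        have := mul_le_mul_of_nonneg_left (mul_le_mul_of_nonneg_right hc2 hd.le) p2.le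
        linarith
      have q2 : 0 < ‖v₂‖^2 * (t - s) := by positivity
      rw [abs_le] at k1
      constructor
      · linarith [k1.1]
      · linarith [k1.1]
    have Lf : ∀ s ∈ Icc (τ-ε) τ, ∀ t ∈ Icc (τ-ε) τ, s < t → 
        ((starRingEnd ℂ) v₂ * (γ t - γ s)).re < 0 ∧ |((starRingEnd ℂ) v₂ * (γ t - γ s)).im| ≤ 
        -(2/5 * ((starRingEnd ℂ) v₂ * (γ t - γ s)).re) := by
      intro s hs t ht hst
      obtain ⟨k1, k2⟩ := tan_est (e := v₂) (H1 s t (by linarith [hs.1]) hst ht.2)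
      rw [hv21, ofReal_re] at k1
      rw [hv21, ofReal_im, mul_zero, sub_zero] at k2
      have hd : 0 < t - s := by linarith
      have q1 : ‖v₂‖ * (c * (t - s)) ≤ 1/4 * (‖v₁‖ * ‖v₂‖ * (t - s)) := by
        have := mul_le_mul_of_nonneg_left (mul_le_mul_of_nonneg_right hc1 hd.le) p2.le
        linarith
      have q2 : 0 < ‖v₁‖ * ‖v₂‖ * (t - s) := by positivity
      rw [abs_le] at k1
      constructor
      · linarith [k1.2]
      · linarith [k1.2]
    refine ⟨v₂, ε, hε0, ?_, ?_, ?_, ?_⟩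
    · intro s hs t ht hst
      have := (Lf s hs t ht hst).1
      rw [mul_sub, sub_re] at this
      simp only
      linarith
    · intro s hs t ht hst
      have := (R s hs t ht hst).1
      rw [mul_sub, sub_re] at this
      simp only
      linarith
    · intro s hs t ht
      rcases lt_trichotomy s t with hst | hst | hst
      · obtain ⟨k1, k2⟩ := Lf s hs t ht hst
        rw [show γ s - γ t = -(γ t - γ s) by ring, mul_neg, neg_re, neg_im, abs_neg, abs_neg, 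
          abs_of_neg k1]
        linarith
      · rw [hst, sub_self, mul_zero]; simp
      · obtain ⟨k1, k2⟩ := Lf t ht s hs hst
        rw [abs_of_neg k1]
        linarith
    · intro s hs t ht
      rcases lt_trichotomy s t with hst | hst | hst
      · obtain ⟨k1, k2⟩ := R s hs t ht hst
        rw [show γ s - γ t = -(γ t - γ s) by ring, mul_neg, neg_re, neg_im, abs_neg, abs_neg, 
          abs_of_pos k1]
        linarith
      · rw [hst, sub_self, mul_zero]; simp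
      · obtain ⟨k1, k2⟩ := R t ht s hs hst
        rw [abs_of_pos k1]
        linarith
  · -- locally monotone
    left
    set n := (‖v₂‖ : ℂ) * v₁ + (‖v₁‖ : ℂ) * v₂ with hndef
    have pn : 0 < ‖n‖ := norm_pos_iff.mpr hn
    -- Re (conj n v₁) and Re (conj n v₂)
    have e1 : 2 * (‖v₂‖ * ((starRingEnd ℂ) n * v₁).re) = ‖n‖^2 := by
      have a1 : ((starRingEnd ℂ) n * v₁).re = n.re * v₁.re + n.im * v₁.im := by
        rw [mul_re, conj_re, conj_im]; ring
      have a2 : ‖n‖^2 = n.re^2 + n.im^2 := by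
        rw [← Complex.normSq_eq_norm_sq, normSq_apply]; ring
      have a3 : ‖v₁‖^2 = v₁.re^2 + v₁.im^2 := by
        rw [← Complex.normSq_eq_norm_sq, normSq_apply]; ring
      have a4 : ‖v₂‖^2 = v₂.re^2 + v₂.im^2 := by
        rw [← Complex.normSq_eq_norm_sq, normSq_apply]; ring
      have b1 : n.re = ‖v₂‖ * v₁.re + ‖v₁‖ * v₂.re := by
        rw [hndef, add_re, re_ofReal_mul, re_ofReal_mul]
      have b2 : n.im = ‖v₂‖ * v₁.im + ‖v₁‖ * v₂.im := by
        rw [hndef, add_im, im_ofReal_mul, im_ofReal_mul]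
      rw [a1, a2, b1, b2]
      linear_combination (-‖v₂‖^2) * a3 + (‖v₁‖^2) * a4 
    have e2 : 2 * (‖v₁‖ * ((starRingEnd ℂ) n * v₂).re) = ‖n‖^2 := by
      have a1 : ((starRingEnd ℂ) n * v₂).re = n.re * v₂.re + n.im * v₂.im := by
        rw [mul_re, conj_re, conj_im]; ring
      have a2 : ‖n‖^2 = n.re^2 + n.im^2 := by
        rw [← Complex.normSq_eq_norm_sq, normSq_apply]; ring
      have a3 : ‖v₁‖^2 = v₁.re^2 + v₁.im^2 := by
        rw [← Complex.normSq_eq_norm_sq, normSq_apply]; ring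
      have a4 : ‖v₂‖^2 = v₂.re^2 + v₂.im^2 := by
        rw [← Complex.normSq_eq_norm_sq, normSq_apply]; ring
      have b1 : n.re = ‖v₂‖ * v₁.re + ‖v₁‖ * v₂.re := by
        rw [hndef, add_re, re_ofReal_mul, re_ofReal_mul]
      have b2 : n.im = ‖v₂‖ * v₁.im + ‖v₁‖ * v₂.im := by
        rw [hndef, add_im, im_ofReal_mul, im_ofReal_mul]
      rw [a1, a2, b1, b2]
      linear_combination (‖v₂‖^2) * a3 + (-‖v₁‖^2) * a4 
    have r1 : 0 < ((starRingEnd ℂ) n * v₁).re := by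
      by_contra hcon
      push Not at hcon
      have := mul_nonpos_of_nonneg_of_nonpos p2.le hcon
      have : 0 < ‖n‖^2 := by positivity
      linarith
    have r2 : 0 < ((starRingEnd ℂ) n * v₂).re := by
      by_contra hcon
      push Not at hcon
      have := mul_nonpos_of_nonneg_of_nonpos p1.le hcon
      have : 0 < ‖n‖^2 := by positivity
      linarith
    set m := min ((starRingEnd ℂ) n * v₁).re ((starRingEnd ℂ) n * v₂).re with hm
    have hm0 : 0 < m := lt_min r1 r2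
    set c := m / (2 * ‖n‖) with hc
    have hc0 : 0 < c := by positivity
    have hcn : ‖n‖ * c = m/2 := by rw [hc]; field_simp
    obtain ⟨ε₁, hε₁, H1⟩ := h.left c hc0
    obtain ⟨ε₂, hε₂, H2⟩ := h.right c hc0
    have Lf : ∀ s t, τ - ε₁ < s → s < t → t ≤ τ → 0 < ((starRingEnd ℂ) n * (γ t - γ s)).re := by
      intro s t h1 h2 h3
      obtain ⟨k1, -⟩ := tan_est (e := n) (H1 s t h1 h2 h3)
      have hd : 0 < t - s := by linarith
      have q1 : (t - s) * m ≤ (t - s) * ((starRingEnd ℂ) n * v₁).re := 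
        mul_le_mul_of_nonneg_left (min_le_left _ _) hd.le
      have q2 : ‖n‖ * (c * (t - s)) = m/2 * (t - s) := by rw [← hcn]; ring
      have q3 : 0 < (t - s) * m := mul_pos hd hm0
      rw [q2, abs_le] at k1
      linarith [k1.1]
    have Rt : ∀ s t, τ ≤ s → s < t → t < τ + ε₂ → 0 < ((starRingEnd ℂ) n * (γ t - γ s)).re := by
      intro s t h1 h2 h3
      obtain ⟨k1, -⟩ := tan_est (e := n) (H2 s t h1 h2 h3)
      have hd : 0 < t - s := by linarith
      have q1 : (t - s) * m ≤ (t - s) * ((starRingEnd ℂ) n * v₂).re := 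
        mul_le_mul_of_nonneg_left (min_le_right _ _) hd.le
      have q2 : ‖n‖ * (c * (t - s)) = m/2 * (t - s) := by rw [← hcn]; ring
      have q3 : 0 < (t - s) * m := mul_pos hd hm0
      rw [q2, abs_le] at k1
      linarith [k1.1]
    refine ⟨min ε₁ ε₂, noTrap_mono hγ hδ (e := n) ⟨lt_min hε₁ hε₂, ?_⟩⟩
    have m1 := min_le_left ε₁ ε₂
    have m2 := min_le_right ε₁ ε₂
    intro s hs t ht hst
    have key : 0 < ((starRingEnd ℂ) n * (γ t - γ s)).re := by
      rcases le_total t τ with h1 | h1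
      · exact Lf s t (by linarith [hs.1]) hst h1
      · rcases le_total τ s with h2 | h2
        · exact Rt s t h2 hst (by linarith [ht.2])
        · rcases h2.lt_or_eq with h3 | h3
          · rcases h1.lt_or_eq with h4 | h4
            · have k1 := Lf s τ (by linarith [hs.1]) h3 le_rfl
              have k2 := Rt τ t le_rfl h4 (by linarith [ht.2])
              have : (starRingEnd ℂ) n * (γ t - γ s) = (starRingEnd ℂ) n * (γ t - γ τ) + 
                (starRingEnd ℂ) n * (γ τ - γ s) := by ring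
              rw [this, add_re]
              linarith
            · rw [← h4]
              exact Lf s τ (by linarith [hs.1]) h3 le_rfl
          · rw [h3]
            exact Rt τ t le_rfl (by linarith) (by linarith [ht.2])
    rw [mul_sub, sub_re] at key
    simp only
    linarith

end Pool.Agent.TH587
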